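import Mathlib
import Pool.Agent.R554.TC.Logic
import Pool.Agent.R554.TC.Graphs

/-!
MP_c527bb_lc, Q1: 2-connectivity of finite graphs is not definable by a sentence of `TC^1_0`
(first-order logic with the transitive closure of binary relations defined without parameters).
-/

set_option autoImplicit false

namespace Pool.Agent.Results.MP_c527bb_lc.TwoConnUndefinable

open Pool.Agent.R554.TC

theorem reach_mono {V : Type} {G : SimpleGraph V} {x y : V} {k l : ℕ} (h : Reach G x k y)
    (hkl : k ≤ l) : Reach G x l y := by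
  induction h generalizing l with
  | refl k => exact Reach.refl l
  | @step k u v hr hadj ih =>
    obtain ⟨m, rfl⟩ : ∃ m, l = m + 1 := ⟨l - 1, by omega⟩
    exact Reach.step (ih (by omega)) hadj

theorem good_mono {V : Type} {G : SimpleGraph V} {g k : ℕ} (h : Good k G) (hgk : g ≤ k) :
    Good g G where
  deg := h.deg
  nb := fun x u n hn => h.nb x u n (hn.trans hgk)
  even := h.even
  far := by
    intro A hA
    obtain ⟨v, hv⟩ := h.far A (hA.trans hgk)
    exact ⟨v, fun a ha hr => hv a ha (reach_mono hr hgk)⟩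

theorem le_card {n k : ℕ} {G : SimpleGraph (Fin n)} (h : Good k G) : k ≤ n := by
  by_contra hlt
  obtain ⟨v, hv⟩ := h.far Finset.univ (by rw [Finset.card_univ, Fintype.card_fin]; omega)
  exact hv v (Finset.mem_univ v) (Reach.refl k)

theorem connected {n k : ℕ} {G : SimpleGraph (Fin n)} (h : Good k G) (hk : 1 ≤ k) :
    G.Connected := by
  have hn : 1 ≤ n := hk.trans (le_card h)
  have : Nonempty (Fin n) := ⟨⟨0, by omega⟩⟩
  refine ⟨fun x y => ?_⟩
  have h1 := h.even x y
  induction h1 with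
  | single h2 =>
    obtain ⟨m, h3, h4⟩ := h2
    exact h3.reachable.trans h4.reachable
  | tail _ h2 ih =>
    obtain ⟨m, h3, h4⟩ := h2
    exact ih.trans (h3.reachable.trans h4.reachable)

/-- There is no sentence of `TC^1_0` that holds exactly in the 2-connected finite graphs.
More precisely, for every sentence `ψ` of `TC^1_0` and every `N` there are finite connected
4-regular graphs `G`, `H` with at least `N` vertices such that `G` is 2-connected, `H` is not
2-connected, and `ψ` has the same truth value in `G` and in `H`. -/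
theorem result :
    (¬ ∃ ψ : Fm 0, ∀ (n : ℕ) (G : SimpleGraph (Fin n)), sat G ψ ![] ↔ TwoConn G) ∧
    ∀ (ψ : Fm 0) (N : ℕ), ∃ (n m : ℕ) (G : SimpleGraph (Fin n)) (H : SimpleGraph (Fin m)),
      N ≤ n ∧ N ≤ m ∧ G.Connected ∧ H.Connected ∧
      (∀ v, (G.neighborSet v).ncard = 4) ∧ (∀ v, (H.neighborSet v).ncard = 4) ∧
      TwoConn G ∧ ¬ TwoConn H ∧ (sat G ψ ![] ↔ sat H ψ ![]) := by
  have key : ∀ (ψ : Fm 0) (N : ℕ), ∃ (n m : ℕ) (G : SimpleGraph (Fin n))
      (H : SimpleGraph (Fin m)),
      N ≤ n ∧ N ≤ m ∧ G.Connected ∧ H.Connected ∧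
      (∀ v, (G.neighborSet v).ncard = 4) ∧ (∀ v, (H.neighborSet v).ncard = 4) ∧
      TwoConn G ∧ ¬ TwoConn H ∧ (sat G ψ ![] ↔ sat H ψ ![]) := by
    intro ψ N
    obtain ⟨g, hg⟩ := logic_main ψ
    obtain ⟨n, G, hG, hG2⟩ := exists_twoConn (g + N + 1)
    obtain ⟨m, H, hH, hH2⟩ := exists_not_twoConn (g + N + 1)
    refine ⟨n, m, G, H, (by omega : N ≤ g + N + 1).trans (le_card hG),
      (by omega : N ≤ g + N + 1).trans (le_card hH), connected hG (by omega),
      connected hH (by omega), fun v => (hG.deg v).2, fun v => (hH.deg v).2, hG2, hH2,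
      hg _ _ G H (good_mono hG (by omega)) (good_mono hH (by omega))⟩
  refine ⟨?_, key⟩
  rintro ⟨ψ, hψ⟩
  obtain ⟨n, m, G, H, -, -, -, -, -, -, h1, h2, h3⟩ := key ψ 0
  exact h2 ((hψ m H).1 (h3.1 ((hψ n G).2 h1)))

end Pool.Agent.Results.MP_c527bb_lc.TwoConnUndefinable
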